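import Pool.Agent.Lib.MP_28cddd_co.Stage

/-!
A stage graph with two large sets of free vertices is strongly non-stackable.
-/

namespace Pool.Agent.Lib.MP_28cddd_co

open Finset

variable {V : Type} [DecidableEq V]

theorem Gather.exists_near {G : SimpleGraph V} {B : Finset V} {w : V} (h : Gather G B w)
    (hne : B.Nonempty) : ∃ y ∈ B, G.dist y w ≤ B.card := by
  cases h with
  | nil => exact absurd hne (by simp)
  | cons A' B' y w hA hB ht hd hdist =>
    refine ⟨y, Finset.mem_union_right _ (Finset.mem_insert_self _ _), ?_⟩
    rw [hdist, Finset.card_union_of_disjoint hd, Finset.card_insert_of_notMem hB.notMem]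
    omega

/-- Hypotheses for the negative stages. `L` is the union of the two large sets. -/
structure NegData (pos : V → ℕ) (D : ℕ) (free : V → Prop) (c c' : ℕ) (L : V → Prop) : Prop where
  full : ∀ k ≤ D, ∃ v, ¬ free v ∧ lev pos D v = k
  ne : c ≠ c'
  hc : 2 * c + 1 ≤ D
  hc' : 2 * c' + 1 ≤ D
  freeD : ∀ v, free v → lev pos D v < D
  Lfree : ∀ v, L v → free v
  Llev : ∀ v, L v → lev pos D v = c ∨ lev pos D v = c'

variable {pos : V → ℕ} {D : ℕ} {free : V → Prop} {c c' : ℕ} {L : V → Prop}

omit [DecidableEq V] in
theorem NegData.dist_le (h : NegData pos D free c c' L) (u v : V) (huv : u ≠ v) :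
    (stageGraph pos D free).dist u v ≤ D + 2 := by
  rw [(dist_stage pos D free h.full u v huv).2]
  have h1 := fr_le free u
  have h2 := fr_le free v
  have h3 : lev pos D u ≤ D := min_le_right _ _
  have h4 : lev pos D v ≤ D := min_le_right _ _
  omega

omit [DecidableEq V] in
/-- No vertex is farther from `w ∈ L` than the non-free vertices of the last level. -/
theorem NegData.ecc (h : NegData pos D free c c' L) {w u y : V} (hw : L w) (hwu : w ≠ u)
    (hyw : y ≠ w) (hy : ¬ free y) (hyD : lev pos D y = D) :
    (stageGraph pos D free).dist w u ≤ (stageGraph pos D free).dist y w := by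
  rw [(dist_stage pos D free h.full w u hwu).2, (dist_stage pos D free h.full y w hyw).2,
    fr_of (h.Lfree w hw), fr_of_not hy, hyD]
  have h3 : lev pos D u ≤ D := min_le_right _ _
  have hc := h.hc
  have hc' := h.hc'
  by_cases hu : free u
  · have h4 := h.freeD u hu
    rw [fr_of hu]
    rcases h.Llev w hw with h5 | h5 <;> rw [h5] <;> omega
  · rw [fr_of_not hu]
    rcases h.Llev w hw with h5 | h5 <;> rw [h5] <;> omega

theorem NegData.adj_of_gather (h : NegData pos D free c c' L) {A : Finset V} {t : V}
    (hg : Gather (stageGraph pos D free) A t)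
    (hA : ∀ v ∈ A, L v ∨ lev pos D v = D) :
    ∀ v ∈ A, L v → (stageGraph pos D free).Adj v t := by
  induction hg with
  | nil t => intro v hv; simp at hv
  | cons A B w t hA' hB ht hd hdist ihA ihB =>
    intro v hv hLv
    rw [Finset.mem_union] at hv
    rcases hv with hv | hv
    · exact ihA (fun u hu => hA u (Finset.mem_union_left _ hu)) v hv hLv
    · have ihB' := ihB (fun u hu => hA u (Finset.mem_union_right _ (Finset.mem_insert_of_mem hu)))
      have hwA := hA w (Finset.mem_union_right _ (Finset.mem_insert_self _ _))
      have hBL : ∀ u ∈ B, ¬ L u := by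
        intro u hu hLu
        have hadj := ihB' u hu hLu
        obtain ⟨-, h2⟩ := hadj
        have hfu := h.Lfree u hLu
        rcases h2 with ⟨a, b, c, d⟩ | ⟨a, b, c⟩ | ⟨a, b, c⟩
        · exact a hfu
        · rcases hwA with hLw | hDw
          · exact b (h.Lfree w hLw)
          · have := h.freeD u hfu
            omega
        · exact a hfu
      rw [Finset.mem_insert] at hv
      rcases hv with rfl | hv
      · -- v = w
        by_cases hBe : B = ∅
        · subst hBe
          rw [Finset.card_empty] at hdist
          exact SimpleGraph.dist_eq_one_iff_adj.1 hdist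
        · exfalso
          obtain ⟨y, hyB, hy⟩ := hB.exists_near (Finset.nonempty_iff_ne_empty.2 hBe)
          have hyA := hA y (Finset.mem_union_right _ (Finset.mem_insert_of_mem hyB))
          have hyL := hBL y hyB
          have hyD : lev pos D y = D := hyA.resolve_left hyL
          have hyf : ¬ free y := fun hf => by
            have := h.freeD y hf
            omega
          have hyv : y ≠ v := fun hyv => hB.notMem (hyv ▸ hyB)
          have hvt : v ≠ t := fun hvt => ht (hvt ▸ Finset.mem_insert_self _ _)
          have := h.ecc hLv hvt hyv hyf hyD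
          omega
      · exact absurd hLv (hBL v hv)

open Classical in
theorem NegData.count (h : NegData pos D free c c' L) {A : Finset V} {t : V}
    (hg : Gather (stageGraph pos D free) A t) :
    (A.filter (fun v => L v ∧ ¬ (stageGraph pos D free).Adj v t)).card ≤
      (D + 2) * (A.filter (fun v => ¬ L v ∧ lev pos D v < D)).card := by
  induction hg with
  | nil t => simp
  | cons A B w t hA hB ht hd hdist ihA ihB =>
    rw [Finset.filter_union, Finset.filter_union,
      Finset.card_union_of_disjoint (Finset.disjoint_filter_filter hd),
      Finset.card_union_of_disjoint (Finset.disjoint_filter_filter hd), Nat.mul_add]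
    refine Nat.add_le_add ihA ?_
    by_cases hH : ((insert w B).filter (fun v => ¬ L v ∧ lev pos D v < D)) = ∅
    · have hg' : Gather (stageGraph pos D free) (insert w B) t := Gather.single hB ht hdist
      have h1 := h.adj_of_gather hg' (fun v hv => by
        by_contra hcon
        push Not at hcon
        have : v ∈ (insert w B).filter (fun v => ¬ L v ∧ lev pos D v < D) := by
          rw [Finset.mem_filter]
          exact ⟨hv, hcon.1, lt_of_le_of_ne (min_le_right _ _) hcon.2⟩
        rw [hH] at this
        simp at this)
      have h2 : (insert w B).filter (fun v => L v ∧ ¬ (stageGraph pos D free).Adj v t) = ∅ := by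
        rw [Finset.filter_eq_empty_iff]
        intro v hv hcon
        exact hcon.2 (h1 v hv hcon.1)
      rw [h2]
      simp
    · have h1 : 1 ≤ ((insert w B).filter (fun v => ¬ L v ∧ lev pos D v < D)).card := by
        rw [Nat.one_le_iff_ne_zero, Ne, Finset.card_eq_zero]
        exact hH
      have hwt : w ≠ t := fun h => ht (h ▸ Finset.mem_insert_self _ _)
      calc ((insert w B).filter (fun v => L v ∧ ¬ (stageGraph pos D free).Adj v t)).card
          ≤ (insert w B).card := Finset.card_filter_le _ _
        _ = (stageGraph pos D free).dist w t := by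
            rw [Finset.card_insert_of_notMem hB.notMem, hdist]
        _ ≤ D + 2 := h.dist_le w t hwt
        _ = (D + 2) * 1 := (Nat.mul_one _).symm
        _ ≤ _ := Nat.mul_le_mul_left _ h1

open Classical in
/-- The negative stages are strongly non-stackable. -/
theorem NegData.stronglyNonStackable [Fintype V] (h : NegData pos D free c c' L)
    (hcard : (D + 2) * ((Finset.univ : Finset V).filter (fun v => ¬ L v ∧ lev pos D v < D)).card + 1
      < ((Finset.univ : Finset V).filter (fun v => L v ∧ lev pos D v = c)).card)
    (hcard' : (D + 2) * ((Finset.univ : Finset V).filter (fun v => ¬ L v ∧ lev pos D v < D)).card + 1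
      < ((Finset.univ : Finset V).filter (fun v => L v ∧ lev pos D v = c')).card) :
    StronglyNonStackable (stageGraph pos D free) := by
  intro t hst
  rw [stackableTo_iff] at hst
  have h1 := h.count hst
  have h2 : ((Finset.univ.erase t).filter (fun v => ¬ L v ∧ lev pos D v < D)).card ≤
      ((Finset.univ : Finset V).filter (fun v => ¬ L v ∧ lev pos D v < D)).card :=
    Finset.card_le_card (Finset.filter_subset_filter _ (Finset.erase_subset _ _))
  have h3 := Nat.mul_le_mul_left (D + 2) h2
  -- one of the two sets is not adjacent to `t`
  have key : ∀ x : ℕ, (∀ v, L v → lev pos D v = x → ¬ (stageGraph pos D free).Adj v t) →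
      ((Finset.univ : Finset V).filter (fun v => L v ∧ lev pos D v = x)).card ≤
      ((Finset.univ.erase t).filter (fun v => L v ∧ ¬ (stageGraph pos D free).Adj v t)).card + 1 := by
    intro x hx
    have hsub : (((Finset.univ : Finset V).filter (fun v => L v ∧ lev pos D v = x)).erase t) ⊆
        (Finset.univ.erase t).filter (fun v => L v ∧ ¬ (stageGraph pos D free).Adj v t) := by
      intro v hv
      rw [Finset.mem_erase, Finset.mem_filter] at hv
      rw [Finset.mem_filter, Finset.mem_erase]
      exact ⟨⟨hv.1, Finset.mem_univ _⟩, hv.2.2.1, hx v hv.2.2.1 hv.2.2.2⟩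
    have h4 := Finset.card_le_card hsub
    have h5 := Finset.pred_card_le_card_erase
      (s := (Finset.univ : Finset V).filter (fun v => L v ∧ lev pos D v = x)) (a := t)
    omega
  by_cases hcase : ∀ v, L v → lev pos D v = c → ¬ (stageGraph pos D free).Adj v t
  · have := key c hcase
    omega
  · push Not at hcase
    obtain ⟨v, hLv, hvc, hadj⟩ := hcase
    have htc : ¬ free t ∧ lev pos D t = c := by
      obtain ⟨-, h2⟩ := hadj
      have hfv := h.Lfree v hLv
      rcases h2 with ⟨a, b, c, d⟩ | ⟨a, b, c⟩ | ⟨a, b, c⟩
      · exact absurd hfv a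
      · exact ⟨b, by omega⟩
      · exact absurd hfv a
    have := key c' (fun u hLu huc hadj' => by
      obtain ⟨-, h2⟩ := hadj'
      have hfu := h.Lfree u hLu
      have hne := h.ne
      rcases h2 with ⟨a, b, c, d⟩ | ⟨a, b, c⟩ | ⟨a, b, c⟩
      · exact a hfu
      · omega
      · exact a hfu)
    omega

end Pool.Agent.Lib.MP_28cddd_co
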