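import Pool.Agent.Lib.MP_28cddd_co.Positive
import Pool.Agent.Lib.MP_28cddd_co.Negative

/-!
The concrete vertex set, the parameters and the stages.
-/

namespace Pool.Agent.Lib.MP_28cddd_co

open Finset

/-- A fast growing sequence. -/
def gs (K : ℕ) : ℕ → ℕ
  | 0 => 1
  | n + 1 => K * (gs K n + 2) ^ 2

theorem gs_succ (K n : ℕ) : gs K (n + 1) = K * (gs K n + 2) ^ 2 := rfl

theorem sq_le_gs {K : ℕ} (hK : 1 ≤ K) (n : ℕ) : (gs K n + 2) ^ 2 ≤ gs K (n + 1) := by
  rw [gs_succ]
  exact Nat.le_mul_of_pos_left _ hK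

theorem gs_mono {K : ℕ} (hK : 1 ≤ K) : Monotone (gs K) := by
  refine monotone_nat_of_le_succ fun n => ?_
  have := sq_le_gs hK n
  nlinarith

theorem gs_pos {K : ℕ} (hK : 1 ≤ K) (n : ℕ) : 1 ≤ gs K n := by
  have := gs_mono hK (Nat.zero_le n)
  exact this

/-- The blocks: `m` pairs. -/
abbrev Blk (m : ℕ) : Type := Fin m × Bool

/-- The constant of the construction. -/
def KK (m : ℕ) : ℕ := 4 * m + 3

theorem KK_pos (m : ℕ) : 1 ≤ KK m := by unfold KK; omega

/-- The level at which pair `i` starts. -/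
def av (m i : ℕ) : ℕ := gs (KK m) (3 * i)
/-- The truncation levels. -/
def Ev (m i : ℕ) : ℕ := gs (KK m) (3 * i + 1)
/-- The sizes of the free sets. -/
def kv (m i : ℕ) : ℕ := gs (KK m) (3 * i + 2)

/-- The level of block `b`. -/
def ccv (m : ℕ) (b : Blk m) : ℕ := av m b.1 + b.2.toNat

/-- The vertex set. -/
abbrev VV (m : ℕ) : Type := (Fin (Ev m m + 1) × (Blk m ⊕ Fin 3)) ⊕ (Σ b : Blk m, Fin (kv m b.1))

/-- Position of a vertex. -/
def posv (m : ℕ) : VV m → ℕ
  | Sum.inl (p, _) => p.val
  | Sum.inr ⟨b, _⟩ => ccv m b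

/-- The vertices of the free sets with pair index below `M`. -/
def freev (m M : ℕ) : VV m → Prop
  | Sum.inl _ => False
  | Sum.inr ⟨b, _⟩ => b.1.val < M

/-- The free set of block `b`. -/
def Lamv (m : ℕ) (b : Blk m) : Finset (VV m) :=
  (Finset.univ : Finset (Fin (kv m b.1))).image (fun i => Sum.inr ⟨b, i⟩)

/-- Row points. -/
def ptv (m : ℕ) (j : ℕ) (ρ : Blk m ⊕ Fin 3) : VV m := Sum.inl (Fin.ofNat (Ev m m + 1) j, ρ)

theorem card_Lamv (m : ℕ) (b : Blk m) : (Lamv m b).card = kv m b.1 := by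
  unfold Lamv
  rw [Finset.card_image_of_injective _ (fun i j hij => by
    simpa using hij), Finset.card_univ, Fintype.card_fin]

theorem mem_Lamv (m : ℕ) (b : Blk m) (v : VV m) :
    v ∈ Lamv m b ↔ ∃ i : Fin (kv m b.1), v = Sum.inr ⟨b, i⟩ := by
  unfold Lamv
  simp [eq_comm]

theorem av_le_kv (m i : ℕ) : av m i ≤ kv m i := gs_mono (KK_pos m) (by omega)

theorem posv_ptv (m j : ℕ) (hj : j ≤ Ev m m) (ρ : Blk m ⊕ Fin 3) : posv m (ptv m j ρ) = j := by
  simp only [ptv, posv, Fin.val_ofNat]
  exact Nat.mod_eq_of_lt (by omega)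

theorem Ev_mono (m : ℕ) {i j : ℕ} (hij : i ≤ j) : Ev m i ≤ Ev m j :=
  gs_mono (KK_pos m) (by omega)

theorem size_aux (m i j : ℕ) (hij : i < j) : 5 * kv m i + 6 ≤ Ev m j := by
  have h1 := sq_le_gs (KK_pos m) (3 * i + 2)
  have h2 : gs (KK m) (3 * i + 2 + 1) ≤ Ev m j := gs_mono (KK_pos m) (by omega)
  have h3 : 2 ≤ kv m i := by
    have h4 := sq_le_gs (KK_pos m) (3 * i + 1)
    have h5 := gs_pos (KK_pos m) (3 * i + 1)
    unfold kv
    nlinarith
  unfold kv at *
  nlinarith

theorem two_le_kv (m i : ℕ) : 2 ≤ kv m i := by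
  have h4 := sq_le_gs (KK_pos m) (3 * i + 1)
  have h5 := gs_pos (KK_pos m) (3 * i + 1)
  unfold kv
  nlinarith

theorem ccv_le (m : ℕ) (b : Blk m) : ccv m b ≤ av m b.1 + 1 := by
  unfold ccv
  have : b.2.toNat ≤ 1 := Bool.toNat_le _
  omega

/-- The positive stages. -/
theorem posData (m i₀ : ℕ) (hi : i₀ ≤ m) :
    PosData (posv m) (Ev m i₀) (Ev m m) (freev m i₀)
      ((Finset.univ : Finset (Blk m)).filter (fun b => b.1.val < i₀)) (Lamv m) (ccv m) (ptv m) where
  DN := Ev_mono m hi
  free_iff := by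
    rintro (⟨p, ρ⟩ | ⟨b, i⟩)
    · simp only [freev, false_iff, not_exists, not_and]
      intro b _ hb
      rw [mem_Lamv] at hb
      obtain ⟨i, hi⟩ := hb
      exact absurd hi (by simp)
    · simp only [freev]
      constructor
      · intro h
        exact ⟨b, by simp [h], (mem_Lamv m b _).2 ⟨i, rfl⟩⟩
      · rintro ⟨b', hb', hmem⟩
        rw [mem_Lamv] at hmem
        obtain ⟨i', hi'⟩ := hmem
        have : b = b' := by
          have := Sum.inr_injective hi'
          exact congrArg Sigma.fst this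
        subst this
        exact (Finset.mem_filter.1 hb').2
  Lpos := by
    intro b _ v hv
    rw [mem_Lamv] at hv
    obtain ⟨i, rfl⟩ := hv
    rfl
  Ldisj := by
    intro b _ b' _ hbb'
    rw [Finset.disjoint_left]
    intro v hv hv'
    rw [mem_Lamv] at hv hv'
    obtain ⟨i, rfl⟩ := hv
    obtain ⟨i', hi'⟩ := hv'
    exact hbb' (congrArg Sigma.fst (Sum.inr_injective hi'))
  ptfree := fun j ρ h => h
  ptpos := fun j hj ρ => posv_ptv m j hj ρ
  ptinj := by
    intro j hj j' hj' ρ ρ' h
    refine ⟨?_, ?_⟩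
    · rw [← posv_ptv m j hj ρ, h, posv_ptv m j' hj' ρ']
    · have := Sum.inl_injective h
      exact congrArg Prod.snd this
  size := by
    intro b hb
    rw [Finset.mem_filter] at hb
    have h1 := size_aux m b.1 i₀ hb.2
    have h2 := av_le_kv m b.1
    have h3 := ccv_le m b
    have h4 := two_le_kv m b.1
    rw [card_Lamv]
    omega
  sizeN := by
    intro b hb
    have h1 := size_aux m b.1 m b.1.isLt
    have h2 := av_le_kv m b.1
    have h3 := ccv_le m b
    rw [card_Lamv]
    omega
  two := by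
    intro b _
    rw [card_Lamv]
    exact two_le_kv m b.1

/-- The vertices of the two large free sets of a negative stage. -/
def Lset (m i₁ : ℕ) : VV m → Prop
  | Sum.inl _ => False
  | Sum.inr ⟨b, _⟩ => b.1.val = i₁

theorem av_lt_Ev (m i : ℕ) : 2 * (av m i + 1) + 1 ≤ Ev m i := by
  have h1 := sq_le_gs (KK_pos m) (3 * i)
  have h2 := gs_pos (KK_pos m) (3 * i)
  unfold Ev av
  nlinarith

theorem av_mono (m : ℕ) {i j : ℕ} (hij : i ≤ j) : av m i ≤ av m j :=
  gs_mono (KK_pos m) (by omega)

theorem negData (m i₁ : ℕ) (hi : i₁ < m) :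
    NegData (posv m) (Ev m i₁) (freev m (i₁ + 1)) (av m i₁) (av m i₁ + 1) (Lset m i₁) where
  full := by
    intro k hk
    refine ⟨ptv m k (Sum.inr 0), fun h => h, ?_⟩
    unfold lev
    rw [posv_ptv m k (hk.trans (Ev_mono m hi.le))]
    omega
  ne := by omega
  hc := by have := av_lt_Ev m i₁; omega
  hc' := av_lt_Ev m i₁
  freeD := by
    rintro (⟨p, ρ⟩ | ⟨b, i⟩) h
    · exact absurd h (fun h => h)
    · have h1 := av_lt_Ev m i₁
      have h2 := ccv_le m b
      have h3 : b.1.val < i₁ + 1 := h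
      have h4 := av_mono m (show b.1.val ≤ i₁ by omega)
      unfold lev
      simp only [posv]
      omega
  Lfree := by
    rintro (⟨p, ρ⟩ | ⟨b, i⟩) h
    · exact absurd h (fun h => h)
    · have h3 : b.1.val = i₁ := h
      show b.1.val < i₁ + 1
      omega
  Llev := by
    rintro (⟨p, ρ⟩ | ⟨b, i⟩) h
    · exact absurd h (fun h => h)
    · have h1 := av_lt_Ev m i₁
      have h3 : b.1.val = i₁ := h
      unfold lev
      simp only [posv, ccv, h3]
      have : b.2.toNat ≤ 1 := Bool.toNat_le _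
      omega

open Classical in
theorem card_helpers (m i₁ : ℕ) (hi : i₁ < m) :
    ((Finset.univ : Finset (VV m)).filter
      (fun v => ¬ Lset m i₁ v ∧ lev (posv m) (Ev m i₁) v < Ev m i₁)).card ≤
      (4 * m + 3) * Ev m i₁ := by
  have hsub : (Finset.univ : Finset (VV m)).filter
      (fun v => ¬ Lset m i₁ v ∧ lev (posv m) (Ev m i₁) v < Ev m i₁) ⊆
      ((Finset.range (Ev m i₁)) ×ˢ (Finset.univ : Finset (Blk m ⊕ Fin 3))).image
        (fun q => ptv m q.1 q.2) ∪
      ((Finset.univ : Finset (Blk m)).filter (fun b => b.1.val < i₁)).biUnion (Lamv m) := by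
    rintro (⟨p, ρ⟩ | ⟨b, i⟩) hv
    · rw [Finset.mem_filter] at hv
      apply Finset.mem_union_left
      rw [Finset.mem_image]
      refine ⟨(p.val, ρ), ?_, ?_⟩
      · rw [Finset.mem_product]
        refine ⟨?_, Finset.mem_univ _⟩
        rw [Finset.mem_range]
        have := hv.2.2
        unfold lev at this
        simp only [posv] at this
        simp only
        omega
      · simp only [ptv]
        congr 2
        ext
        rw [Fin.val_ofNat]
        exact Nat.mod_eq_of_lt p.isLt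
    · rw [Finset.mem_filter] at hv
      apply Finset.mem_union_right
      rw [Finset.mem_biUnion]
      refine ⟨b, ?_, (mem_Lamv m b _).2 ⟨i, rfl⟩⟩
      rw [Finset.mem_filter]
      refine ⟨Finset.mem_univ _, ?_⟩
      have h1 : b.1.val ≠ i₁ := hv.2.1
      by_contra hcon
      have h2 : i₁ + 1 ≤ b.1.val := by omega
      have h3 : av m (i₁ + 1) ≤ av m b.1.val := av_mono m h2
      have h4 : Ev m i₁ ≤ av m (i₁ + 1) := gs_mono (KK_pos m) (by omega)
      have h5 := hv.2.2
      unfold lev at h5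
      simp only [posv, ccv] at h5
      omega
  refine (Finset.card_le_card hsub).trans ((Finset.card_union_le _ _).trans ?_)
  have h1 : (((Finset.range (Ev m i₁)) ×ˢ (Finset.univ : Finset (Blk m ⊕ Fin 3))).image
        (fun q => ptv m q.1 q.2)).card ≤ Ev m i₁ * (m * 2 + 3) := by
    refine Finset.card_image_le.trans ?_
    rw [Finset.card_product, Finset.card_range, Finset.card_univ, Fintype.card_sum,
      Fintype.card_prod, Fintype.card_fin, Fintype.card_bool, Fintype.card_fin]
  have h2 : (((Finset.univ : Finset (Blk m)).filter (fun b => b.1.val < i₁)).biUnion (Lamv m)).card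
      ≤ (m * 2) * Ev m i₁ := by
    refine Finset.card_biUnion_le.trans ?_
    calc ∑ b ∈ (Finset.univ : Finset (Blk m)).filter (fun b => b.1.val < i₁), (Lamv m b).card
        ≤ ∑ b ∈ (Finset.univ : Finset (Blk m)).filter (fun b => b.1.val < i₁), Ev m i₁ := by
          apply Finset.sum_le_sum
          intro b hb
          rw [Finset.mem_filter] at hb
          rw [card_Lamv]
          have := size_aux m b.1 i₁ hb.2
          omega
      _ = ((Finset.univ : Finset (Blk m)).filter (fun b => b.1.val < i₁)).card * Ev m i₁ := by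
          rw [Finset.sum_const, smul_eq_mul]
      _ ≤ (m * 2) * Ev m i₁ := by
          apply Nat.mul_le_mul_right
          refine (Finset.card_filter_le _ _).trans ?_
          rw [Finset.card_univ, Fintype.card_prod, Fintype.card_fin, Fintype.card_bool]
  nlinarith

open Classical in
theorem card_large (m i₁ : ℕ) (hi : i₁ < m) (ε : Bool) :
    kv m i₁ ≤ ((Finset.univ : Finset (VV m)).filter
      (fun v => Lset m i₁ v ∧ lev (posv m) (Ev m i₁) v = av m i₁ + ε.toNat)).card := by
  rw [← card_Lamv m (⟨i₁, hi⟩, ε)]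
  apply Finset.card_le_card
  intro v hv
  rw [mem_Lamv] at hv
  obtain ⟨i, rfl⟩ := hv
  rw [Finset.mem_filter]
  refine ⟨Finset.mem_univ _, rfl, ?_⟩
  have h1 := av_lt_Ev m i₁
  have : ε.toNat ≤ 1 := Bool.toNat_le _
  unfold lev
  simp only [posv, ccv]
  omega

theorem count_aux (m i₁ : ℕ) : (Ev m i₁ + 2) * ((4 * m + 3) * Ev m i₁) + 1 < kv m i₁ := by
  have h : kv m i₁ = (4 * m + 3) * (Ev m i₁ + 2) ^ 2 := rfl
  rw [h]
  nlinarith [Nat.zero_le (m * Ev m i₁), Nat.zero_le m, Nat.zero_le (Ev m i₁)]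

/-- The stages of the chain. -/
def stage (m j : ℕ) : SimpleGraph (VV m) :=
  stageGraph (posv m) (Ev m (m - j / 2)) (freev m (m - (j - 1) / 2))

theorem stage_mono (m j : ℕ) : stage m j ≤ stage m (j + 1) := by
  refine stageGraph_mono _ (Ev_mono m (by omega)) ?_
  rintro (⟨p, ρ⟩ | ⟨b, i⟩) h
  · exact h
  · have h1 : b.1.val < m - (j + 1 - 1) / 2 := h
    show b.1.val < m - (j - 1) / 2
    omega

theorem stage_connected (m j : ℕ) : (stage m j).Connected := by
  apply connected_stage
  intro k hk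
  refine ⟨ptv m k (Sum.inr 0), fun h => h, ?_⟩
  unfold lev
  rw [posv_ptv m k (hk.trans (Ev_mono m (by omega)))]
  omega

theorem stage_odd (m j : ℕ) (hodd : Odd j) : Stackable (stage m j) := by
  obtain ⟨q, rfl⟩ := hodd
  have h1 : (2 * q + 1) / 2 = q := by omega
  have h2 : (2 * q + 1 - 1) / 2 = q := by omega
  unfold stage
  rw [h1, h2]
  exact (posData m (m - q) (by omega)).stackable

theorem stage_even (m j : ℕ) (hj : 1 ≤ j) (hjm : j ≤ m) (heven : Even j) :
    StronglyNonStackable (stage m j) := by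
  obtain ⟨q, rfl⟩ := heven
  have h1 : m - (q + q) / 2 = m - q := by omega
  have h2 : m - (q + q - 1) / 2 = (m - q) + 1 := by omega
  unfold stage
  rw [h1, h2]
  have hi : m - q < m := by omega
  refine (negData m (m - q) hi).stronglyNonStackable ?_ ?_
  · have h3 := card_helpers m (m - q) hi
    have h4 := card_large m (m - q) hi false
    have h5 := count_aux m (m - q)
    have h6 := Nat.mul_le_mul_left (Ev m (m - q) + 2) h3
    simp only [Bool.toNat_false, Nat.add_zero] at h4
    omega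
  · have h3 := card_helpers m (m - q) hi
    have h4 := card_large m (m - q) hi true
    have h5 := count_aux m (m - q)
    have h6 := Nat.mul_le_mul_left (Ev m (m - q) + 2) h3
    simp only [Bool.toNat_true] at h4
    omega

end Pool.Agent.Lib.MP_28cddd_co
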