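import Mathlib

/-!
Cup stacking on a graph: definitions.
-/

namespace Pool.Agent.Lib.MP_28cddd_co

variable {V : Type} [Fintype V] [DecidableEq V]

/-- One move of cup stacking on `G`. A configuration `c : V → ℕ` records the number of cups on each
vertex. A move picks a vertex `x` carrying `c x ≥ 1` cups and a vertex `y ≠ x` carrying at least one
cup, with `d_G(x, y) = c x`, and transfers all cups of `x` onto `y`. -/
inductive Move (G : SimpleGraph V) : (V → ℕ) → (V → ℕ) → Prop
  | mk (c : V → ℕ) (x y : V) (hxy : x ≠ y) (hx : 1 ≤ c x) (hy : 1 ≤ c y) (hd : G.dist x y = c x) :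
      Move G c (Function.update (Function.update c y (c y + c x)) x 0)

/-- `G` is `t`-stackable: starting with one cup on every vertex, some finite sequence of moves ends
with all cups on `t`. -/
def StackableTo (G : SimpleGraph V) (t : V) : Prop :=
  Relation.ReflTransGen (Move G) (fun _ => 1) (fun v => if v = t then Fintype.card V else 0)

/-- `G` is stackable: it is `t`-stackable for every vertex `t`. -/
def Stackable (G : SimpleGraph V) : Prop := ∀ t, StackableTo G t

/-- `G` is strongly non-stackable: it is `t`-stackable for no vertex `t`. -/
def StronglyNonStackable (G : SimpleGraph V) : Prop := ∀ t, ¬ StackableTo G t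

end Pool.Agent.Lib.MP_28cddd_co
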