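import Pool.Agent.Lib.MP_28cddd_co.Defs

/-!
Cup stacking on a graph: the reformulation by gathering sets.
-/

namespace Pool.Agent.Lib.MP_28cddd_co

open Finset

variable {V : Type} [Fintype V] [DecidableEq V]

omit [Fintype V] in
/-- `Gather G A t`: the cups of the vertices of `A` can be moved onto `t`, without using any other
vertex. -/
inductive Gather (G : SimpleGraph V) : Finset V → V → Prop
  | nil (t : V) : Gather G ∅ t
  | cons (A B : Finset V) (w t : V) (hA : Gather G A t) (hB : Gather G B w) (ht : t ∉ insert w B)
      (hd : Disjoint A (insert w B)) (hdist : G.dist w t = B.card + 1) :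
      Gather G (A ∪ insert w B) t

omit [Fintype V] in
theorem Gather.notMem {G : SimpleGraph V} {A : Finset V} {t : V} (h : Gather G A t) : t ∉ A := by
  induction h with
  | nil t => simp
  | cons A B w t hA hB ht hd hdist ihA ihB =>
    rw [Finset.mem_union]
    rintro (h | h)
    · exact ihA h
    · exact ht h

omit [Fintype V] in
theorem Gather.union {G : SimpleGraph V} {A A' : Finset V} {t : V} (h : Gather G A t)
    (h' : Gather G A' t) (hd : Disjoint A A') : Gather G (A ∪ A') t := by
  induction h' with
  | nil t => simpa using h
  | cons A1 B w t hA hB ht hd1 hdist ihA ihB =>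
    rw [← Finset.union_assoc]
    rw [Finset.disjoint_union_right] at hd
    exact Gather.cons _ _ _ _ (ihA h hd.1) hB ht (Finset.disjoint_union_left.2 ⟨hd.2, hd1⟩) hdist

omit [Fintype V] in
theorem Gather.single {G : SimpleGraph V} {B : Finset V} {w t : V} (hB : Gather G B w)
    (ht : t ∉ insert w B) (hdist : G.dist w t = B.card + 1) : Gather G (insert w B) t := by
  have := Gather.cons ∅ B w t (Gather.nil t) hB ht (Finset.disjoint_empty_left _) hdist
  simpa using this

omit [Fintype V] in
theorem Gather.of_adj {G : SimpleGraph V} {A : Finset V} {t : V} (h : ∀ v ∈ A, G.Adj v t) :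
    Gather G A t := by
  induction A using Finset.induction_on with
  | empty => exact Gather.nil t
  | insert v A hv ih =>
    have h1 : Gather G A t := ih fun u hu => h u (Finset.mem_insert_of_mem hu)
    have hadj : G.Adj v t := h v (Finset.mem_insert_self _ _)
    have h2 : Gather G {v} t := by
      have := Gather.single (Gather.nil (G := G) v) (t := t) (by simpa using hadj.ne') (by
        rw [SimpleGraph.dist_eq_one_iff_adj.2 hadj]; simp)
      simpa using this
    have := h1.union h2 (by simpa using hv)
    rwa [Finset.union_comm, ← Finset.insert_eq] at this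

omit [Fintype V] in
theorem Gather.biUnion {G : SimpleGraph V} {ι : Type} [DecidableEq ι] (s : Finset ι)
    (Q : ι → Finset V) {t : V} (h : ∀ i ∈ s, Gather G (Q i) t)
    (hd : ∀ i ∈ s, ∀ j ∈ s, i ≠ j → Disjoint (Q i) (Q j)) : Gather G (s.biUnion Q) t := by
  induction s using Finset.induction_on with
  | empty => exact Gather.nil t
  | insert i s hi ih =>
    rw [Finset.biUnion_insert]
    refine Gather.union (h i (Finset.mem_insert_self _ _))
      (ih (fun j hj => h j (Finset.mem_insert_of_mem hj))
        (fun j hj k hk => hd j (Finset.mem_insert_of_mem hj) k (Finset.mem_insert_of_mem hk))) ?_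
    rw [Finset.disjoint_biUnion_right]
    intro j hj
    exact hd i (Finset.mem_insert_self _ _) j (Finset.mem_insert_of_mem hj)
      (fun h => hi (h ▸ hj))

omit [Fintype V] in
/-- Gathering can be carried out by moves. -/
theorem Gather.moves {G : SimpleGraph V} {A : Finset V} {t : V} (h : Gather G A t) :
    ∀ c : V → ℕ, (∀ v ∈ A, c v = 1) → 1 ≤ c t →
      Relation.ReflTransGen (Move G) c
        (fun v => if v = t then c t + A.card else if v ∈ A then 0 else c v) := by
  induction h with
  | nil t =>
    intro c _ _
    have : (fun v => if v = t then c t + (∅ : Finset V).card else if v ∈ (∅ : Finset V) then 0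
        else c v) = c := by
      funext v
      by_cases hv : v = t
      · simp [hv]
      · simp [hv]
    rw [this]
  | cons A B w t hA hB ht hd hdist ihA ihB =>
    intro c hc hct
    have htA : t ∉ A := hA.notMem
    have hwB : w ∉ B := hB.notMem
    have hwt : w ≠ t := fun h => ht (h ▸ Finset.mem_insert_self _ _)
    have htB : t ∉ B := fun h => ht (Finset.mem_insert_of_mem h)
    have hwA : w ∉ A := fun h => (Finset.disjoint_left.1 hd h) (Finset.mem_insert_self _ _)
    have hBA : ∀ v ∈ B, v ∉ A := fun v hv h =>
      (Finset.disjoint_left.1 hd h) (Finset.mem_insert_of_mem hv)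
    have h1 := ihA c (fun v hv => hc v (Finset.mem_union_left _ hv)) hct
    set c1 : V → ℕ := fun v => if v = t then c t + A.card else if v ∈ A then 0 else c v with hc1
    have hc1w : c1 w = 1 := by
      simp only [hc1, if_neg hwt, if_neg hwA]
      exact hc w (Finset.mem_union_right _ (Finset.mem_insert_self _ _))
    have h2 := ihB c1 (fun v hv => by
      have hvt : v ≠ t := fun h => htB (h ▸ hv)
      simp only [hc1, if_neg hvt, if_neg (hBA v hv)]
      exact hc v (Finset.mem_union_right _ (Finset.mem_insert_of_mem hv))) hc1w.ge
    set c2 : V → ℕ := fun v => if v = w then c1 w + B.card else if v ∈ B then 0 else c1 v with hc2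
    have hc2w : c2 w = B.card + 1 := by simp only [hc2, if_true, hc1w]; omega
    have hc2t : c2 t = c t + A.card := by
      simp only [hc2, if_neg hwt.symm, if_neg htB]
      simp [hc1]
    have h3 : Move G c2 (Function.update (Function.update c2 t (c2 t + c2 w)) w 0) :=
      Move.mk c2 w t hwt (by omega) (by omega) (by rw [hdist, hc2w])
    have h4 : Function.update (Function.update c2 t (c2 t + c2 w)) w 0 =
        (fun v => if v = t then c t + (A ∪ insert w B).card else if v ∈ A ∪ insert w B then 0
          else c v) := by
      funext v
      have hcard : (A ∪ insert w B).card = A.card + (B.card + 1) := by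
        rw [Finset.card_union_of_disjoint hd, Finset.card_insert_of_notMem hwB]
      by_cases hvw : v = w
      · subst hvw
        simp [hwt]
      · rw [Function.update_of_ne hvw]
        by_cases hvt : v = t
        · subst hvt
          rw [Function.update_self, hc2t, hc2w, if_pos rfl, hcard]
          omega
        · rw [Function.update_of_ne hvt, if_neg hvt]
          simp only [hc2, if_neg hvw]
          by_cases hvB : v ∈ B
          · simp [hvB]
          · rw [if_neg hvB]
            simp only [hc1, if_neg hvt]
            by_cases hvA : v ∈ A
            · simp [hvA]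
            · simp [hvA, hvB, hvw]
    rw [h4] at h3
    exact (h1.trans h2).tail h3

omit [Fintype V] in
/-- In every reachable configuration the piles come from gatherings. -/
theorem gather_of_reachable {G : SimpleGraph V} {c : V → ℕ}
    (h : Relation.ReflTransGen (Move G) (fun _ => 1) c) :
    ∃ P : V → Finset V, (∀ v, 0 < c v → Gather G (P v) v ∧ c v = (P v).card + 1) ∧
      ∀ u v, u ≠ v → 0 < c u → 0 < c v → Disjoint (insert u (P u)) (insert v (P v)) := by
  induction h with
  | refl =>
    refine ⟨fun _ => ∅, fun v _ => ⟨Gather.nil v, by simp⟩, fun u v huv _ _ => ?_⟩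
    simpa using huv
  | tail _ hm ih =>
    obtain ⟨P, hP, hdis⟩ := ih
    cases hm with
    | mk x y hxy hx hy hd =>
      rename_i c _
      refine ⟨Function.update P y (P y ∪ insert x (P x)), ?_, ?_⟩
      · intro v hv
        by_cases hvx : v = x
        · subst hvx; simp at hv
        rw [Function.update_of_ne hvx] at hv ⊢
        by_cases hvy : v = y
        · subst hvy
          rw [Function.update_self, Function.update_self]
          obtain ⟨h1, h2⟩ := hP v hy
          obtain ⟨h3, h4⟩ := hP x hx
          have hdd := hdis x v hxy hx hy
          have hdd' : Disjoint (P v) (insert x (P x)) :=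
            (Finset.disjoint_of_subset_right (Finset.subset_insert v _) hdd).symm
          refine ⟨Gather.cons _ _ _ _ h1 h3 ?_ hdd' (by rw [hd, h4]), ?_⟩
          · exact fun hmem => (Finset.disjoint_left.1 hdd hmem) (Finset.mem_insert_self _ _)
          · rw [Finset.card_union_of_disjoint hdd', Finset.card_insert_of_notMem h3.notMem]
            omega
        · rw [Function.update_of_ne hvy] at hv ⊢
          rw [Function.update_of_ne hvy]
          exact hP v hv
      · have key : ∀ v, v ≠ x → v ≠ y → 0 < c v →
            Disjoint (insert y (P y ∪ insert x (P x))) (insert v (P v)) := by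
          intro v hvx hvy hv
          have h1 := hdis y v (Ne.symm hvy) hy hv
          have h2 := hdis x v (Ne.symm hvx) hx hv
          rw [← Finset.insert_union]
          exact Finset.disjoint_union_left.2 ⟨h1, h2⟩
        intro u v huv hu hv
        have hux : u ≠ x := by rintro rfl; simp at hu
        have hvx : v ≠ x := by rintro rfl; simp at hv
        rw [Function.update_of_ne hux] at hu
        rw [Function.update_of_ne hvx] at hv
        by_cases huy : u = y
        · subst huy
          rw [Function.update_self, Function.update_of_ne huv.symm]
          rw [Function.update_of_ne huv.symm] at hv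
          exact key v hvx huv.symm hv
        · rw [Function.update_of_ne huy]
          rw [Function.update_of_ne huy] at hu
          by_cases hvy : v = y
          · subst hvy
            rw [Function.update_self]
            exact (key u hux huy hu).symm
          · rw [Function.update_of_ne hvy]
            rw [Function.update_of_ne hvy] at hv
            exact hdis u v huv hu hv

theorem stackableTo_iff (G : SimpleGraph V) (t : V) :
    StackableTo G t ↔ Gather G (Finset.univ.erase t) t := by
  constructor
  · intro h
    obtain ⟨P, hP, -⟩ := gather_of_reachable h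
    have hpos : 0 < Fintype.card V := Fintype.card_pos_iff.2 ⟨t⟩
    obtain ⟨h1, h2⟩ := hP t (by simpa using hpos)
    have h3 : P t = Finset.univ.erase t := by
      apply Finset.eq_of_subset_of_card_le
      · intro v hv
        rw [Finset.mem_erase]
        exact ⟨fun h => h1.notMem (h ▸ hv), Finset.mem_univ _⟩
      · rw [Finset.card_erase_of_mem (Finset.mem_univ _), Finset.card_univ]
        simp only [if_true] at h2
        omega
    rwa [h3] at h1
  · intro h
    have hpos : 0 < Fintype.card V := Fintype.card_pos_iff.2 ⟨t⟩
    have := h.moves (fun _ => 1) (fun _ _ => rfl) le_rfl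
    unfold StackableTo
    convert this using 2 with v
    by_cases hv : v = t
    · subst hv
      rw [if_pos rfl, if_pos rfl, Finset.card_erase_of_mem (Finset.mem_univ _), Finset.card_univ]
      omega
    · simp [hv]

end Pool.Agent.Lib.MP_28cddd_co
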