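import Pool.Agent.Lib.MP_28cddd_co.Stage

/-!
A stage graph whose free sets are small compared with the number of levels is stackable.
-/

namespace Pool.Agent.Lib.MP_28cddd_co

open Finset

variable {V : Type} [DecidableEq V] {β : Type} [DecidableEq β]

/-- Hypotheses for the positive stages: `Λ b` (`b ∈ U`) are the sets of free vertices, attached at
level `cc b`; `pt j ρ` is the vertex at position `j` of row `ρ`. -/
structure PosData (pos : V → ℕ) (D N : ℕ) (free : V → Prop) (U : Finset β) (Λ : β → Finset V)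
    (cc : β → ℕ) (pt : ℕ → β ⊕ Fin 3 → V) : Prop where
  DN : D ≤ N
  free_iff : ∀ v, free v ↔ ∃ b ∈ U, v ∈ Λ b
  Lpos : ∀ b ∈ U, ∀ v ∈ Λ b, pos v = cc b
  Ldisj : ∀ b ∈ U, ∀ b' ∈ U, b ≠ b' → Disjoint (Λ b) (Λ b')
  ptfree : ∀ j ρ, ¬ free (pt j ρ)
  ptpos : ∀ j ≤ N, ∀ ρ, pos (pt j ρ) = j
  ptinj : ∀ j ≤ N, ∀ j' ≤ N, ∀ ρ ρ', pt j ρ = pt j' ρ' → j = j' ∧ ρ = ρ'
  size : ∀ b ∈ U, cc b + 2 * (Λ b).card + 3 ≤ D
  sizeN : ∀ b ∈ U, 2 * cc b + 3 * (Λ b).card + 4 ≤ N
  two : ∀ b ∈ U, 2 ≤ (Λ b).card

variable {pos : V → ℕ} {D N : ℕ} {free : V → Prop} {U : Finset β} {Λ : β → Finset V}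
  {cc : β → ℕ} {pt : ℕ → β ⊕ Fin 3 → V}

omit [DecidableEq V] [DecidableEq β] in
theorem PosData.lev_pt (h : PosData pos D N free U Λ cc pt) {j : ℕ} (hj : j ≤ N) (ρ : β ⊕ Fin 3) :
    lev pos D (pt j ρ) = min j D := by
  unfold lev
  rw [h.ptpos j hj]

omit [DecidableEq V] [DecidableEq β] in
theorem PosData.full (h : PosData pos D N free U Λ cc pt) :
    ∀ k ≤ D, ∃ v, ¬ free v ∧ lev pos D v = k := by
  intro k hk
  refine ⟨pt k (Sum.inr 0), h.ptfree _ _, ?_⟩
  rw [h.lev_pt (hk.trans h.DN)]
  omega

omit [DecidableEq V] [DecidableEq β] in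
theorem PosData.dist_eq (h : PosData pos D N free U Λ cc pt) {u v : V} (huv : u ≠ v) :
    (stageGraph pos D free).dist u v = max 1 (fr free u + fr free v +
        ((lev pos D u - lev pos D v) + (lev pos D v - lev pos D u))) :=
  (dist_stage pos D free h.full u v huv).2

omit [DecidableEq β] in
theorem PosData.gather_row (h : PosData pos D N free U Λ cc pt) (ρ : β ⊕ Fin 3) (a e : ℕ)
    (hN : a + e ≤ N) : Gather (stageGraph pos D free)
      ((Finset.Ioc a (a + e)).image (fun j => pt j ρ)) (pt a ρ) := by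
  refine (gather_path (stageGraph pos D free) (fun j => pt j ρ) e a (a + e) (by omega) (by omega)
    ?_ ?_).1
  · intro i hi j hj hij
    simp only [Set.mem_Icc] at hi hj
    exact (h.ptinj i (by omega) j (by omega) ρ ρ hij).1
  · intro i hi1 hi2
    refine ⟨fun heq => ?_, Or.inl ⟨h.ptfree _ _, h.ptfree _ _, ?_, ?_⟩⟩
    · have := (h.ptinj i (by omega) (i + 1) (by omega) ρ ρ heq).1
      omega
    · rw [h.lev_pt (by omega), h.lev_pt (by omega)]; omega
    · rw [h.lev_pt (by omega), h.lev_pt (by omega)]; omega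

omit [DecidableEq β] in
/-- The group of cups belonging to the free set `Λ b` can be gathered at `t`. -/
theorem PosData.group (h : PosData pos D N free U Λ cc pt) (t : V) (b : β) (hb : b ∈ U) :
    ∃ Q : Finset V, Gather (stageGraph pos D free) Q t ∧ (Λ b).erase t ⊆ Q ∧
      ∀ v ∈ Q, v ∈ Λ b ∨ ∃ j ≤ N, v = pt j (Sum.inl b) := by
  have hDN := h.DN
  have hsize := h.size b hb
  have hsizeN := h.sizeN b hb
  have htwo := h.two b hb
  have hLfree : ∀ v ∈ Λ b, free v := fun v hv => (h.free_iff v).2 ⟨b, hb, hv⟩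
  have hLlev : ∀ v ∈ Λ b, lev pos D v = cc b := fun v hv => by
    unfold lev
    rw [h.Lpos b hb v hv]
    omega
  by_cases h0 : ¬ free t ∧ lev pos D t = cc b
  · refine ⟨Λ b, Gather.of_adj fun v hv => ?_, Finset.erase_subset _ _, fun v hv => Or.inl hv⟩
    refine ⟨fun hvt => h0.1 (hvt ▸ hLfree v hv), Or.inr (Or.inl ⟨hLfree v hv, h0.1, ?_⟩)⟩
    rw [hLlev v hv, h0.2]
  · set x : V := pt (cc b) (Sum.inl b) with hx
    set Lam : Finset V := (Λ b).erase t with hLam
    have hLamfree : ∀ v ∈ Lam, free v := fun v hv => hLfree v (Finset.mem_of_mem_erase hv)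
    have hcard1 : Lam.card ≤ (Λ b).card := Finset.card_le_card (Finset.erase_subset _ _)
    have hcard2 : (Λ b).card ≤ Lam.card + 1 := by
      have := Finset.pred_card_le_card_erase (s := Λ b) (a := t)
      rw [← hLam] at this
      omega
    have hxfree : ¬ free x := h.ptfree _ _
    have hxlev : lev pos D x = cc b := by
      rw [hx, h.lev_pt (by omega)]; omega
    have hxt : x ≠ t := fun hxt => h0 ⟨hxt ▸ hxfree, hxt ▸ hxlev⟩
    have hgx : Gather (stageGraph pos D free) Lam x := by
      refine Gather.of_adj fun v hv => ?_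
      refine ⟨fun hvx => hxfree (hvx ▸ hLamfree v hv),
        Or.inr (Or.inl ⟨hLamfree v hv, hxfree, ?_⟩)⟩
      rw [hLlev v (Finset.mem_of_mem_erase hv), hxlev]
    have hfrt := fr_le free t
    have hdx := h.dist_eq hxt
    rw [fr_of_not hxfree, hxlev] at hdx
    have hτD : lev pos D t ≤ D := min_le_right _ _
    have hdisjrow : ∀ a e : ℕ, Disjoint Lam
        ((Finset.Ioc a (a + e)).image (fun j => pt j (Sum.inl b))) := by
      intro a e
      rw [Finset.disjoint_left]
      intro v hv hv'
      rw [Finset.mem_image] at hv'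
      obtain ⟨j, -, rfl⟩ := hv'
      exact h.ptfree _ _ (hLamfree _ hv)
    have hcardrow : ∀ a e : ℕ, a + e ≤ N →
        ((Finset.Ioc a (a + e)).image (fun j => pt j (Sum.inl b))).card = e := by
      intro a e hae
      rw [Finset.card_image_of_injOn, Nat.card_Ioc]
      · omega
      · intro i hi j hj hij
        simp only [Finset.coe_Ioc, Set.mem_Ioc] at hi hj
        exact (h.ptinj i (by omega) j (by omega) _ _ hij).1
    by_cases hA : cc b + Lam.card + 1 ≤ lev pos D t + fr free t
    · -- direct jump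
      set e : ℕ := lev pos D t + fr free t - cc b - Lam.card - 1 with he
      have hrow := h.gather_row (Sum.inl b) (cc b) e (by omega)
      have hB := hgx.union hrow (hdisjrow _ _)
      refine ⟨insert x (Lam ∪ (Finset.Ioc (cc b) (cc b + e)).image (fun j => pt j (Sum.inl b))),
        Gather.single hB ?_ ?_, ?_, ?_⟩
      · rw [Finset.mem_insert, Finset.mem_union]
        rintro (ht | ht | ht)
        · exact hxt ht.symm
        · exact (Finset.mem_erase.1 ht).1 rfl
        · rw [Finset.mem_image] at ht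
          obtain ⟨j, hj, hjt⟩ := ht
          rw [Finset.mem_Ioc] at hj
          have h1 := h.lev_pt (show j ≤ N by omega) (Sum.inl b)
          rw [hjt] at h1
          omega
      · rw [Finset.card_union_of_disjoint (hdisjrow _ _), hcardrow _ _ (by omega), hdx]
        omega
      · exact fun v hv => Finset.mem_insert_of_mem (Finset.mem_union_left _ hv)
      · intro v hv
        rw [Finset.mem_insert, Finset.mem_union] at hv
        rcases hv with rfl | hv | hv
        · exact Or.inr ⟨cc b, by omega, rfl⟩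
        · exact Or.inl (Finset.mem_of_mem_erase hv)
        · rw [Finset.mem_image] at hv
          obtain ⟨j, hj, hjt⟩ := hv
          rw [Finset.mem_Ioc] at hj
          exact Or.inr ⟨j, by omega, hjt.symm⟩
    · -- two jumps to the right and one back
      set w : V := pt (cc b + Lam.card + 1) (Sum.inl b) with hw
      set z : V := pt (cc b + 2 * Lam.card + 3) (Sum.inl b) with hz
      have hwfree : ¬ free w := h.ptfree _ _
      have hzfree : ¬ free z := h.ptfree _ _
      have hwlev : lev pos D w = cc b + Lam.card + 1 := by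
        rw [hw, h.lev_pt (by omega)]; omega
      have hzlev : lev pos D z = cc b + 2 * Lam.card + 3 := by
        rw [hz, h.lev_pt (by omega)]; omega
      have hxw : x ≠ w := fun hh => by rw [hh] at hxlev; omega
      have hwz : w ≠ z := fun hh => by rw [hh] at hwlev; omega
      have hxz : x ≠ z := fun hh => by rw [hh] at hxlev; omega
      have hzt : z ≠ t := fun hh => by rw [hh] at hzlev; omega
      have hwt : w ≠ t := fun hh => by rw [hh] at hwlev; omega
      have hLamx : x ∉ Lam := fun hh => hxfree (hLamfree _ hh)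
      have hLamw : w ∉ Lam := fun hh => hwfree (hLamfree _ hh)
      have hLamz : z ∉ Lam := fun hh => hzfree (hLamfree _ hh)
      have hgw : Gather (stageGraph pos D free) (insert x Lam) w := by
        refine Gather.single hgx ?_ ?_
        · rw [Finset.mem_insert]
          rintro (hh | hh)
          · exact hxw hh.symm
          · exact hLamw hh
        · rw [h.dist_eq hxw, fr_of_not hxfree, fr_of_not hwfree, hxlev, hwlev]
          omega
      have hgz : Gather (stageGraph pos D free) (insert w (insert x Lam)) z := by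
        refine Gather.single hgw ?_ ?_
        · rw [Finset.mem_insert, Finset.mem_insert]
          rintro (hh | hh | hh)
          · exact hwz hh.symm
          · exact hxz hh.symm
          · exact hLamz hh
        · rw [h.dist_eq hwz, fr_of_not hwfree, fr_of_not hzfree, hwlev, hzlev,
            Finset.card_insert_of_notMem hLamx]
          omega
      set e : ℕ := cc b + Lam.card + fr free t - lev pos D t with he
      have hrow := h.gather_row (Sum.inl b) (cc b + 2 * Lam.card + 3) e (by omega)
      have hdis2 : Disjoint (insert w (insert x Lam))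
          ((Finset.Ioc (cc b + 2 * Lam.card + 3) (cc b + 2 * Lam.card + 3 + e)).image
            (fun j => pt j (Sum.inl b))) := by
        rw [Finset.disjoint_insert_left, Finset.disjoint_insert_left]
        refine ⟨?_, ?_, hdisjrow _ _⟩
        · rw [Finset.mem_image]
          rintro ⟨j, hj, hjw⟩
          rw [Finset.mem_Ioc] at hj
          have := (h.ptinj j (by omega) _ (by omega) _ _ hjw).1
          omega
        · rw [Finset.mem_image]
          rintro ⟨j, hj, hjw⟩
          rw [Finset.mem_Ioc] at hj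
          have := (h.ptinj j (by omega) _ (by omega) _ _ hjw).1
          omega
      have hB := hgz.union hrow hdis2
      have hwins : w ∉ insert x Lam := by
        rw [Finset.mem_insert]
        rintro (hh | hh)
        · exact hxw hh.symm
        · exact hLamw hh
      refine ⟨_, Gather.single hB ?_ ?_, ?_, ?_⟩
      · rw [Finset.mem_insert, Finset.mem_union, Finset.mem_insert, Finset.mem_insert]
        rintro (ht | (ht | ht | ht) | ht)
        · exact hzt ht.symm
        · exact hwt ht.symm
        · exact hxt ht.symm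
        · exact (Finset.mem_erase.1 ht).1 rfl
        · rw [Finset.mem_image] at ht
          obtain ⟨j, hj, hjt⟩ := ht
          rw [Finset.mem_Ioc] at hj
          have h1 := h.lev_pt (show j ≤ N by omega) (Sum.inl b)
          rw [hjt] at h1
          omega
      · rw [Finset.card_union_of_disjoint hdis2, hcardrow _ _ (by omega),
          Finset.card_insert_of_notMem hwins, Finset.card_insert_of_notMem hLamx,
          h.dist_eq hzt, fr_of_not hzfree, hzlev]
        omega
      · exact fun v hv => Finset.mem_insert_of_mem (Finset.mem_union_left _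
          (Finset.mem_insert_of_mem (Finset.mem_insert_of_mem hv)))
      · intro v hv
        rw [Finset.mem_insert, Finset.mem_union, Finset.mem_insert, Finset.mem_insert] at hv
        rcases hv with rfl | (rfl | rfl | hv) | hv
        · exact Or.inr ⟨_, by omega, rfl⟩
        · exact Or.inr ⟨_, by omega, rfl⟩
        · exact Or.inr ⟨_, by omega, rfl⟩
        · exact Or.inl (Finset.mem_of_mem_erase hv)
        · rw [Finset.mem_image] at hv
          obtain ⟨j, hj, hjt⟩ := hv
          rw [Finset.mem_Ioc] at hj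
          exact Or.inr ⟨j, by omega, hjt.symm⟩

/-- The positive stages are stackable. -/
theorem PosData.stackable [Fintype V] (h : PosData pos D N free U Λ cc pt) :
    Stackable (stageGraph pos D free) := by
  classical
  intro t
  rw [stackableTo_iff]
  have hDN := h.DN
  choose! Q hQ1 hQ2 hQ3 using fun b (hb : b ∈ U) => h.group t b hb
  -- the groups are pairwise disjoint
  have hdisj : ∀ b ∈ U, ∀ b' ∈ U, b ≠ b' → Disjoint (Q b) (Q b') := by
    intro b hb b' hb' hbb'
    rw [Finset.disjoint_left]
    intro v hv hv'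
    rcases hQ3 b hb v hv with h1 | ⟨j, hj, rfl⟩
    · rcases hQ3 b' hb' v hv' with h2 | ⟨j', hj', rfl⟩
      · exact (Finset.disjoint_left.1 (h.Ldisj b hb b' hb' hbb')) h1 h2
      · exact h.ptfree _ _ ((h.free_iff _).2 ⟨b, hb, h1⟩)
    · rcases hQ3 b' hb' _ hv' with h2 | ⟨j', hj', h3⟩
      · exact h.ptfree _ _ ((h.free_iff _).2 ⟨b', hb', h2⟩)
      · have := (h.ptinj _ hj _ hj' _ _ h3).2
        exact hbb' (Sum.inl_injective this)
  have hgQ := Gather.biUnion U Q hQ1 hdisj
  set Qall : Finset V := U.biUnion Q with hQall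
  set S : Finset V := Finset.univ \ insert t Qall with hS
  have hStQ : ∀ v, v ∈ S ↔ v ≠ t ∧ v ∉ Qall := by
    intro v
    simp only [hS, Finset.mem_sdiff, Finset.mem_univ, true_and, Finset.mem_insert, not_or]
  have hSfree : ∀ v ∈ S, ¬ free v := by
    intro v hv hf
    obtain ⟨b, hb, hvb⟩ := (h.free_iff v).1 hf
    have hv' := (hStQ v).1 hv
    exact hv'.2 (Finset.mem_biUnion.2 ⟨b, hb, hQ2 b hb (Finset.mem_erase.2 ⟨hv'.1, hvb⟩)⟩)
  have hmain : ∀ j ≤ N, ∀ i : Fin 3, pt j (Sum.inr i) ∉ Qall := by
    intro j hj i hmem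
    obtain ⟨b, hb, hvb⟩ := Finset.mem_biUnion.1 hmem
    rcases hQ3 b hb _ hvb with h2 | ⟨j', hj', h3⟩
    · exact h.ptfree _ _ ((h.free_iff _).2 ⟨b, hb, h2⟩)
    · have := (h.ptinj _ hj _ hj' _ _ h3).2
      exact Sum.inr_ne_inl this
  have hτD : lev pos D t ≤ D := min_le_right _ _
  set τ := lev pos D t with hτ
  have hptlev : ∀ k ≤ D, ∀ i : Fin 3, lev pos D (pt k (Sum.inr i)) = k := by
    intro k hk i
    rw [h.lev_pt (hk.trans hDN)]
    omega
  -- two main vertices at the level of `t` different from `t`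
  obtain ⟨i1, i2, hi12, hi1, hi2⟩ : ∃ i1 i2 : Fin 3, i1 ≠ i2 ∧ pt τ (Sum.inr i1) ≠ t ∧
      pt τ (Sum.inr i2) ≠ t := by
    have hinj : ∀ i j : Fin 3, pt τ (Sum.inr i) = t → pt τ (Sum.inr j) = t → i = j := by
      intro i j hi hj
      have := (h.ptinj _ (hτD.trans hDN) _ (hτD.trans hDN) _ _ (hi.trans hj.symm)).2
      exact Sum.inr_injective this
    by_cases h0 : pt τ (Sum.inr 0) = t
    · exact ⟨1, 2, by decide, fun hh => absurd (hinj 0 1 h0 hh) (by decide),
        fun hh => absurd (hinj 0 2 h0 hh) (by decide)⟩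
    · by_cases h1 : pt τ (Sum.inr 1) = t
      · exact ⟨0, 2, by decide, h0, fun hh => absurd (hinj 1 2 h1 hh) (by decide)⟩
      · exact ⟨0, 1, by decide, h0, h1⟩
  have hne12 : pt τ (Sum.inr i1) ≠ pt τ (Sum.inr i2) := fun hh => hi12
    (Sum.inr_injective (h.ptinj _ (hτD.trans hDN) _ (hτD.trans hDN) _ _ hh).2)
  set v1 : V := pt τ (Sum.inr i1) with hv1
  have hv1lev : lev pos D v1 = τ := hptlev τ hτD i1
  have hv1S : v1 ∈ S := (hStQ v1).2 ⟨hi1, hmain _ (hτD.trans hDN) _⟩
  have hv2S : pt τ (Sum.inr i2) ∈ S := (hStQ _).2 ⟨hi2, hmain _ (hτD.trans hDN) _⟩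
  have hkS : ∀ k ≤ D, k ≠ τ → pt k (Sum.inr 0) ∈ S := by
    intro k hk hkτ
    refine (hStQ _).2 ⟨fun hh => hkτ ?_, hmain _ (hk.trans hDN) _⟩
    rw [← hptlev k hk 0, hh]
  have hadjS : ∀ u ∈ S, ∀ v ∈ S, u ≠ v → lev pos D u ≤ lev pos D v + 1 →
      lev pos D v ≤ lev pos D u + 1 → (stageGraph pos D free).Adj u v := fun u hu v hv huv h1 h2 =>
    ⟨huv, Or.inl ⟨hSfree u hu, hSfree v hv, h1, h2⟩⟩
  have hadjt : ∀ u ∈ S, lev pos D u = τ → (stageGraph pos D free).Adj t u := by
    intro u hu hlev
    refine ⟨((hStQ u).1 hu).1.symm, ?_⟩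
    by_cases hft : free t
    · exact Or.inr (Or.inl ⟨hft, hSfree u hu, hlev.symm⟩)
    · exact Or.inl ⟨hft, hSfree u hu, by omega, by omega⟩
  have htS : t ∉ S := fun hh => ((hStQ t).1 hh).1 rfl
  -- the part to the right
  have hright : Gather (stageGraph pos D free) (S.filter (fun v => v = v1 ∨ τ < lev pos D v)) t := by
    refine gather_thick _ (fun v => (lev pos D v : ℤ)) t (τ : ℤ) _ ?_ ?_ ?_ ?_ ?_
    · intro u hu v hv huv h1 h2
      exact hadjS u (Finset.mem_filter.1 hu).1 v (Finset.mem_filter.1 hv).1 huv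
        (by omega) (by omega)
    · exact fun hh => htS (Finset.mem_filter.1 hh).1
    · intro u hu h1
      exact hadjt u (Finset.mem_filter.1 hu).1 (by omega)
    · intro u hu
      rcases (Finset.mem_filter.1 hu).2 with h1 | h1
      · rw [h1]; omega
      · omega
    · intro u hu k hk1 hk2
      have huD : lev pos D u ≤ D := min_le_right _ _
      obtain ⟨k', rfl⟩ : ∃ k' : ℕ, k = (k' : ℤ) := ⟨k.toNat, by omega⟩
      by_cases hkτ : k' = τ
      · refine ⟨v1, Finset.mem_filter.2 ⟨hv1S, Or.inl rfl⟩, ?_⟩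
        simp only [hv1lev, hkτ]
      · have hk' : k' ≤ D := by omega
        refine ⟨pt k' (Sum.inr 0), Finset.mem_filter.2 ⟨hkS k' hk' hkτ, Or.inr ?_⟩, ?_⟩
        · rw [hptlev k' hk']; omega
        · simp only [hptlev k' hk']
  -- the part to the left
  have hleft : Gather (stageGraph pos D free)
      (S.filter (fun v => ¬ (v = v1 ∨ τ < lev pos D v))) t := by
    refine gather_thick _ (fun v => -(lev pos D v : ℤ)) t (-(τ : ℤ)) _ ?_ ?_ ?_ ?_ ?_
    · intro u hu v hv huv h1 h2
      exact hadjS u (Finset.mem_filter.1 hu).1 v (Finset.mem_filter.1 hv).1 huv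
        (by omega) (by omega)
    · exact fun hh => htS (Finset.mem_filter.1 hh).1
    · intro u hu h1
      exact hadjt u (Finset.mem_filter.1 hu).1 (by omega)
    · intro u hu
      have := (Finset.mem_filter.1 hu).2
      push Not at this
      omega
    · intro u hu k hk1 hk2
      have huD : lev pos D u ≤ D := min_le_right _ _
      obtain ⟨k', hk'⟩ : ∃ k' : ℕ, k = -(k' : ℤ) := ⟨(-k).toNat, by omega⟩
      subst hk'
      by_cases hkτ : k' = τ
      · refine ⟨pt τ (Sum.inr i2), Finset.mem_filter.2 ⟨hv2S, ?_⟩, ?_⟩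
        · rintro (hh | hh)
          · exact hne12 hh.symm
          · have := hptlev τ hτD i2
            omega
        · simp only [hptlev τ hτD, hkτ]
      · have hk'D : k' ≤ D := by omega
        refine ⟨pt k' (Sum.inr 0), Finset.mem_filter.2 ⟨hkS k' hk'D hkτ, ?_⟩, ?_⟩
        · rintro (hh | hh)
          · have h1 := hptlev k' hk'D 0
            rw [hh] at h1
            omega
          · rw [hptlev k' hk'D] at hh; omega
        · simp only [hptlev k' hk'D]
  have hSg := hright.union hleft (Finset.disjoint_filter_filter_not _ _ _)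
  rw [Finset.filter_union_filter_not_eq] at hSg
  have hQS : Disjoint Qall S := by
    rw [Finset.disjoint_left]
    intro v hv hv'
    exact ((hStQ v).1 hv').2 hv
  have := hgQ.union hSg hQS
  convert this using 1
  ext v
  simp only [Finset.mem_erase, Finset.mem_univ, and_true, Finset.mem_union]
  constructor
  · intro hvt
    by_cases hv : v ∈ Qall
    · exact Or.inl hv
    · exact Or.inr ((hStQ v).2 ⟨hvt, hv⟩)
  · rintro (hv | hv)
    · rintro rfl
      exact hgQ.notMem hv
    · exact ((hStQ v).1 hv).1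

end Pool.Agent.Lib.MP_28cddd_co
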