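import Pool.Agent.Lib.MP_28cddd_co.Thick

/-!
The family of graphs used in the construction and their distances.
-/

namespace Pool.Agent.Lib.MP_28cddd_co

open Finset

variable {V : Type}

theorem le_length_of_lipschitz (G : SimpleGraph V) (h : V → ℕ)
    (hlip : ∀ u w, G.Adj u w → h u ≤ h w + 1) {u v : V} (w : G.Walk u v) :
    h u ≤ h v + w.length := by
  induction w with
  | nil => simp
  | cons hadj p ih =>
    rw [SimpleGraph.Walk.length_cons]
    have := hlip _ _ hadj
    omega

theorem dist_of_potential (G : SimpleGraph V) (v : V) (h : V → ℕ) (h0 : h v = 0)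
    (hlip : ∀ u w, G.Adj u w → h u ≤ h w + 1)
    (hdesc : ∀ u, u ≠ v → ∃ w, G.Adj u w ∧ h w + 1 ≤ h u) (u : V) :
    G.Reachable u v ∧ G.dist u v = h u := by
  have key : ∀ n u, h u ≤ n → ∃ w : G.Walk u v, w.length ≤ h u := by
    intro n
    induction n with
    | zero =>
      intro u hu
      by_cases huv : u = v
      · subst huv
        exact ⟨SimpleGraph.Walk.nil, by simp⟩
      · obtain ⟨w, -, hw⟩ := hdesc u huv
        omega
    | succ n ih =>
      intro u hu
      by_cases huv : u = v
      · subst huv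
        exact ⟨SimpleGraph.Walk.nil, by simp⟩
      · obtain ⟨w, hadj, hw⟩ := hdesc u huv
        obtain ⟨p, hp⟩ := ih w (by omega)
        refine ⟨SimpleGraph.Walk.cons hadj p, ?_⟩
        rw [SimpleGraph.Walk.length_cons]
        omega
  obtain ⟨w, hw⟩ := key (h u) u le_rfl
  refine ⟨w.reachable, le_antisymm ((SimpleGraph.dist_le w).trans hw) ?_⟩
  obtain ⟨p, hp⟩ := w.reachable.exists_walk_length_eq_dist
  have := le_length_of_lipschitz G h hlip p
  omega

/-- The level of `v` when all levels from `D` on are merged. -/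
def lev (pos : V → ℕ) (D : ℕ) (v : V) : ℕ := min (pos v) D

/-- The stage graph. Non-free vertices are joined iff their levels differ by at most one; a free
vertex is joined to the non-free vertices of its level. -/
def stageGraph (pos : V → ℕ) (D : ℕ) (free : V → Prop) : SimpleGraph V where
  Adj u v := u ≠ v ∧
    ((¬ free u ∧ ¬ free v ∧ lev pos D u ≤ lev pos D v + 1 ∧ lev pos D v ≤ lev pos D u + 1) ∨
     (free u ∧ ¬ free v ∧ lev pos D u = lev pos D v) ∨
     (¬ free u ∧ free v ∧ lev pos D u = lev pos D v))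
  symm := ⟨by
    rintro u v ⟨h1, h2⟩
    refine ⟨h1.symm, ?_⟩
    rcases h2 with ⟨a, b, c, d⟩ | ⟨a, b, c⟩ | ⟨a, b, c⟩
    · exact Or.inl ⟨b, a, d, c⟩
    · exact Or.inr (Or.inr ⟨b, a, c.symm⟩)
    · exact Or.inr (Or.inl ⟨b, a, c.symm⟩)⟩
  loopless := ⟨fun _ h => h.1 rfl⟩

theorem stageGraph_mono (pos : V → ℕ) {D D' : ℕ} {free free' : V → Prop} (hD : D' ≤ D)
    (hf : ∀ v, free' v → free v) : stageGraph pos D free ≤ stageGraph pos D' free' := by
  intro u v h
  obtain ⟨h1, h2⟩ := h
  refine ⟨h1, ?_⟩
  unfold lev at h2 ⊢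
  have hu := hf u
  have hv := hf v
  by_cases h3 : free' u <;> by_cases h4 : free' v
  · rcases h2 with ⟨a, b, c, d⟩ | ⟨a, b, c⟩ | ⟨a, b, c⟩
    · exact absurd (hu h3) a
    · exact absurd (hv h4) b
    · exact absurd (hu h3) a
  · rcases h2 with ⟨a, b, c, d⟩ | ⟨a, b, c⟩ | ⟨a, b, c⟩
    · exact absurd (hu h3) a
    · exact Or.inr (Or.inl ⟨h3, h4, by omega⟩)
    · exact absurd (hu h3) a
  · rcases h2 with ⟨a, b, c, d⟩ | ⟨a, b, c⟩ | ⟨a, b, c⟩
    · exact absurd (hv h4) b
    · exact absurd (hv h4) b
    · exact Or.inr (Or.inr ⟨h3, h4, by omega⟩)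
  · rcases h2 with ⟨a, b, c, d⟩ | ⟨a, b, c⟩ | ⟨a, b, c⟩
    · exact Or.inl ⟨h3, h4, by omega, by omega⟩
    · exact Or.inl ⟨h3, h4, by omega, by omega⟩
    · exact Or.inl ⟨h3, h4, by omega, by omega⟩

open Classical in
/-- Indicator of being free. -/
noncomputable def fr (free : V → Prop) (v : V) : ℕ := if free v then 1 else 0

theorem fr_le (free : V → Prop) (v : V) : fr free v ≤ 1 := by
  unfold fr; split_ifs <;> omega

theorem fr_of {free : V → Prop} {v : V} (h : free v) : fr free v = 1 := by
  unfold fr; simp [h]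

theorem fr_of_not {free : V → Prop} {v : V} (h : ¬ free v) : fr free v = 0 := by
  unfold fr; simp [h]

/-- Distances in the stage graph. -/
theorem dist_stage (pos : V → ℕ) (D : ℕ) (free : V → Prop)
    (hfull : ∀ k ≤ D, ∃ v, ¬ free v ∧ lev pos D v = k) (u v : V) (huv : u ≠ v) :
    (stageGraph pos D free).Reachable u v ∧ (stageGraph pos D free).dist u v =
      max 1 (fr free u + fr free v +
        ((lev pos D u - lev pos D v) + (lev pos D v - lev pos D u))) := by
  classical
  have hlevD : ∀ w, lev pos D w ≤ D := fun w => min_le_right _ _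
  let h : V → ℕ := fun w => if w = v then 0 else max 1 (fr free w + fr free v +
        ((lev pos D w - lev pos D v) + (lev pos D v - lev pos D w)))
  have hne : ∀ w, w ≠ v → h w = max 1 (fr free w + fr free v +
        ((lev pos D w - lev pos D v) + (lev pos D v - lev pos D w))) := fun w hw => if_neg hw
  have hv : h v = 0 := if_pos rfl
  have main := dist_of_potential (stageGraph pos D free) v h hv ?_ ?_ u
  · rw [hne u huv] at main
    exact main
  · intro a b hab
    obtain ⟨hab1, hab2⟩ := hab
    have hfa := fr_le free a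
    have hfb := fr_le free b
    have hfv := fr_le free v
    have hcase : (fr free a = 0 ∧ fr free b = 0 ∧ lev pos D a ≤ lev pos D b + 1 ∧
        lev pos D b ≤ lev pos D a + 1) ∨ (fr free a + fr free b = 1 ∧ lev pos D a = lev pos D b) := by
      rcases hab2 with ⟨x, y, z, w⟩ | ⟨x, y, z⟩ | ⟨x, y, z⟩
      · exact Or.inl ⟨fr_of_not x, fr_of_not y, z, w⟩
      · exact Or.inr ⟨by rw [fr_of x, fr_of_not y], z⟩
      · exact Or.inr ⟨by rw [fr_of_not x, fr_of y], z⟩
    by_cases ha : a = v
    · rw [ha, hv]; omega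
    · by_cases hb : b = v
      · subst hb
        rw [hne a ha, hv]
        omega
      · rw [hne a ha, hne b hb]
        omega
  · intro a ha
    rw [hne a ha]
    have hfa := fr_le free a
    have hfv := fr_le free v
    have hlast : ∀ w, (w = v → True) → w ≠ v ∨ w = v := fun w _ => (ne_or_eq w v)
    -- adjacency to `v` when the potential is one
    by_cases h1 : max 1 (fr free a + fr free v +
        ((lev pos D a - lev pos D v) + (lev pos D v - lev pos D a))) = 1
    · refine ⟨v, ⟨ha, ?_⟩, by rw [hv, h1]⟩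
      by_cases hfa' : free a <;> by_cases hfv' : free v
      · rw [fr_of hfa', fr_of hfv'] at h1; omega
      · rw [fr_of hfa', fr_of_not hfv'] at h1
        exact Or.inr (Or.inl ⟨hfa', hfv', by omega⟩)
      · rw [fr_of_not hfa', fr_of hfv'] at h1
        exact Or.inr (Or.inr ⟨hfa', hfv', by omega⟩)
      · rw [fr_of_not hfa', fr_of_not hfv'] at h1
        exact Or.inl ⟨hfa', hfv', by omega, by omega⟩
    · by_cases hfa' : free a
      · obtain ⟨w, hw1, hw2⟩ := hfull (lev pos D a) (hlevD a)
        refine ⟨w, ⟨fun h => hw1 (h ▸ hfa'), Or.inr (Or.inl ⟨hfa', hw1, hw2.symm⟩)⟩, ?_⟩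
        rw [fr_of hfa'] at h1 ⊢
        by_cases hwv : w = v
        · rw [hwv, hv]; omega
        · rw [hne w hwv, fr_of_not hw1, hw2]
          omega
      · rw [fr_of_not hfa'] at h1 ⊢
        rcases Nat.lt_trichotomy (lev pos D a) (lev pos D v) with hlt | heq | hgt
        · have := hlevD v
          obtain ⟨w, hw1, hw2⟩ := hfull (lev pos D a + 1) (by omega)
          refine ⟨w, ⟨fun h => by rw [← h] at hw2; omega,
            Or.inl ⟨hfa', hw1, by omega, by omega⟩⟩, ?_⟩
          by_cases hwv : w = v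
          · rw [hwv, hv]; omega
          · rw [hne w hwv, fr_of_not hw1, hw2]
            omega
        · exfalso; omega
        · have := hlevD a
          obtain ⟨w, hw1, hw2⟩ := hfull (lev pos D a - 1) (by omega)
          refine ⟨w, ⟨fun h => by rw [← h] at hw2; omega,
            Or.inl ⟨hfa', hw1, by omega, by omega⟩⟩, ?_⟩
          by_cases hwv : w = v
          · rw [hwv, hv]; omega
          · rw [hne w hwv, fr_of_not hw1, hw2]
            omega

theorem connected_stage (pos : V → ℕ) (D : ℕ) (free : V → Prop)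
    (hfull : ∀ k ≤ D, ∃ v, ¬ free v ∧ lev pos D v = k) : (stageGraph pos D free).Connected := by
  obtain ⟨v₀, -, -⟩ := hfull 0 (Nat.zero_le _)
  have : Nonempty V := ⟨v₀⟩
  refine ⟨fun u v => ?_⟩
  by_cases huv : u = v
  · subst huv; exact SimpleGraph.Reachable.refl _
  · exact (dist_stage pos D free hfull u v huv).1

end Pool.Agent.Lib.MP_28cddd_co
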