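import Pool.Agent.Lib.MP_28cddd_co.Game

/-!
Gathering along paths and along gap-free layered sets.
-/

namespace Pool.Agent.Lib.MP_28cddd_co

open Finset

variable {V : Type} [DecidableEq V]

omit [DecidableEq V] in
theorem exists_walk_of_path (G : SimpleGraph V) (p : ℕ → V) (a n : ℕ)
    (hadj : ∀ i, a ≤ i → i < a + n → G.Adj (p i) (p (i + 1))) :
    ∃ w : G.Walk (p a) (p (a + n)), w.length = n := by
  induction n with
  | zero => exact ⟨SimpleGraph.Walk.nil, rfl⟩
  | succ n ih =>
    obtain ⟨w, hw⟩ := ih fun i h1 h2 => hadj i h1 (by omega)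
    refine ⟨w.concat (hadj (a + n) (by omega) (by omega)), ?_⟩
    rw [SimpleGraph.Walk.length_concat, hw]

/-- The path lemma: the vertices of a path can be gathered at either end. -/
theorem gather_path (G : SimpleGraph V) (p : ℕ → V) : ∀ n a b : ℕ, b - a ≤ n → a ≤ b →
    Set.InjOn p (Set.Icc a b) → (∀ i, a ≤ i → i < b → G.Adj (p i) (p (i + 1))) →
    Gather G ((Finset.Ioc a b).image p) (p a) ∧ Gather G ((Finset.Ico a b).image p) (p b) := by
  intro n
  induction n with
  | zero =>
    intro a b h1 h2 _ _
    have : a = b := by omega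
    subst this
    simp only [Finset.Ioc_self, Finset.Ico_self, Finset.image_empty]
    exact ⟨Gather.nil _, Gather.nil _⟩
  | succ n ih =>
    intro a b h1 h2 hinj hadj
    rcases Nat.eq_or_lt_of_le h2 with rfl | hlt
    · simp only [Finset.Ioc_self, Finset.Ico_self, Finset.image_empty]
      exact ⟨Gather.nil _, Gather.nil _⟩
    have hne : p a ≠ p b := fun h => by
      have := hinj (Set.left_mem_Icc.2 h2) (Set.right_mem_Icc.2 h2) h
      omega
    obtain ⟨w, hw⟩ := exists_walk_of_path G p a (b - a) (fun i hi1 hi2 => hadj i hi1 (by omega))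
    have hab : a + (b - a) = b := by omega
    have hd1 : G.dist (p a) (p (a + (b - a))) ≤ b - a := (SimpleGraph.dist_le w).trans hw.le
    have hreach : G.Reachable (p a) (p (a + (b - a))) := w.reachable
    rw [hab] at hd1 hreach
    have hd2 : 0 < G.dist (p a) (p b) := hreach.pos_dist_of_ne hne
    set δ := G.dist (p a) (p b) with hδ
    have cardI : ∀ s : Finset ℕ, (∀ i ∈ s, a ≤ i ∧ i ≤ b) → (s.image p).card = s.card := by
      intro s hs
      apply Finset.card_image_of_injOn
      intro i hi j hj hij
      exact hinj (hs i hi) (hs j hj) hij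
    constructor
    · -- forward
      have hA := (ih a (b - δ) (by omega) (by omega)
        (hinj.mono (Set.Icc_subset_Icc_right (by omega))) (fun i hi1 hi2 => hadj i hi1 (by omega))).1
      have hB := (ih (b - δ + 1) b (by omega) (by omega)
        (hinj.mono (Set.Icc_subset_Icc_left (by omega))) (fun i hi1 hi2 => hadj i (by omega) hi2)).2
      have hins : insert (p b) ((Finset.Ico (b - δ + 1) b).image p) =
          (Finset.Ioc (b - δ) b).image p := by
        rw [← Finset.image_insert]
        congr 1
        ext i
        simp only [Finset.mem_insert, Finset.mem_Ico, Finset.mem_Ioc]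
        omega
      have hun : (Finset.Ioc a (b - δ)).image p ∪ (Finset.Ioc (b - δ) b).image p =
          (Finset.Ioc a b).image p := by
        rw [← Finset.image_union]
        congr 1
        ext i
        simp only [Finset.mem_union, Finset.mem_Ioc]
        omega
      rw [← hun, ← hins]
      refine Gather.cons _ _ _ _ hA hB ?_ ?_ ?_
      · rw [hins, Finset.mem_image]
        rintro ⟨i, hi, hia⟩
        rw [Finset.mem_Ioc] at hi
        have := hinj (x₁ := i) (x₂ := a) (by simp only [Set.mem_Icc]; omega)
          (by simp only [Set.mem_Icc]; omega) hia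
        omega
      · rw [hins, Finset.disjoint_left]
        intro x hx hx'
        rw [Finset.mem_image] at hx hx'
        obtain ⟨i, hi, hix⟩ := hx
        obtain ⟨j, hj, hjx⟩ := hx'
        rw [Finset.mem_Ioc] at hi hj
        have := hinj (x₁ := i) (x₂ := j) (by simp only [Set.mem_Icc]; omega)
          (by simp only [Set.mem_Icc]; omega) (hix.trans hjx.symm)
        omega
      · rw [SimpleGraph.dist_comm, cardI _ (fun i hi => by rw [Finset.mem_Ico] at hi; omega),
          Nat.card_Ico]
        omega
    · -- backward
      have hA := (ih (a + δ) b (by omega) (by omega)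
        (hinj.mono (Set.Icc_subset_Icc_left (by omega))) (fun i hi1 hi2 => hadj i (by omega) hi2)).2
      have hB := (ih a (a + δ - 1) (by omega) (by omega)
        (hinj.mono (Set.Icc_subset_Icc_right (by omega))) (fun i hi1 hi2 => hadj i hi1 (by omega))).1
      have hins : insert (p a) ((Finset.Ioc a (a + δ - 1)).image p) =
          (Finset.Ico a (a + δ)).image p := by
        rw [← Finset.image_insert]
        congr 1
        ext i
        simp only [Finset.mem_insert, Finset.mem_Ico, Finset.mem_Ioc]
        omega
      have hun : (Finset.Ico (a + δ) b).image p ∪ (Finset.Ico a (a + δ)).image p =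
          (Finset.Ico a b).image p := by
        rw [← Finset.image_union]
        congr 1
        ext i
        simp only [Finset.mem_union, Finset.mem_Ico]
        omega
      rw [← hun, ← hins]
      refine Gather.cons _ _ _ _ hA hB ?_ ?_ ?_
      · rw [hins, Finset.mem_image]
        rintro ⟨i, hi, hia⟩
        rw [Finset.mem_Ico] at hi
        have := hinj (x₁ := i) (x₂ := b) (by simp only [Set.mem_Icc]; omega)
          (by simp only [Set.mem_Icc]; omega) hia
        omega
      · rw [hins, Finset.disjoint_left]
        intro x hx hx'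
        rw [Finset.mem_image] at hx hx'
        obtain ⟨i, hi, hix⟩ := hx
        obtain ⟨j, hj, hjx⟩ := hx'
        rw [Finset.mem_Ico] at hi hj
        have := hinj (x₁ := i) (x₂ := j) (by simp only [Set.mem_Icc]; omega)
          (by simp only [Set.mem_Icc]; omega) (hix.trans hjx.symm)
        omega
      · rw [cardI _ (fun i hi => by rw [Finset.mem_Ioc] at hi; omega), Nat.card_Ioc]
        omega

/-- Enumeration of a gap-free layered set as a path starting next to `t`. -/
theorem exists_path_enum (G : SimpleGraph V) (ℓ : V → ℤ) (t : V) (a : ℤ) :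
    ∀ (n : ℕ) (S : Finset V), S.card = n →
    (∀ u ∈ S, ∀ v ∈ S, u ≠ v → ℓ u ≤ ℓ v + 1 → ℓ v ≤ ℓ u + 1 → G.Adj u v) →
    t ∉ S → (∀ u ∈ S, ℓ u = a → G.Adj t u) → (∀ u ∈ S, a ≤ ℓ u) →
    (∀ u ∈ S, ∀ k, a ≤ k → k ≤ ℓ u → ∃ v ∈ S, ℓ v = k) →
    ∃ p : ℕ → V, p 0 = t ∧ Set.InjOn p (Set.Icc 0 n) ∧
      (∀ i, 0 ≤ i → i < n → G.Adj (p i) (p (i + 1))) ∧ (Finset.Ioc 0 n).image p = S ∧
      (0 < n → ∀ u ∈ S, ℓ u ≤ ℓ (p n)) := by
  intro n
  induction n with
  | zero =>
    intro S hS _ _ _ _ _
    rw [Finset.card_eq_zero] at hS
    subst hS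
    refine ⟨fun _ => t, rfl, ?_, ?_, ?_, ?_⟩
    · intro i hi j hj _
      simp only [Set.mem_Icc] at hi hj
      omega
    · intro i _ h; omega
    · simp
    · intro h; omega
  | succ n ih =>
    intro S hS hadj ht hta hmin hgap
    have hne : S.Nonempty := by
      rw [← Finset.card_pos]; omega
    obtain ⟨v, hvS, hv⟩ := Finset.exists_max_image S ℓ hne
    have hcard : (S.erase v).card = n := by
      rw [Finset.card_erase_of_mem hvS, hS]; rfl
    obtain ⟨p, hp0, hpinj, hpadj, hpim, hpmax⟩ := ih (S.erase v) hcard
      (fun u hu w hw => hadj u (Finset.mem_of_mem_erase hu) w (Finset.mem_of_mem_erase hw))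
      (fun h => ht (Finset.mem_of_mem_erase h))
      (fun u hu => hta u (Finset.mem_of_mem_erase hu))
      (fun u hu => hmin u (Finset.mem_of_mem_erase hu))
      (fun u hu k hk1 hk2 => by
        obtain ⟨w, hwS, hwk⟩ := hgap u (Finset.mem_of_mem_erase hu) k hk1 hk2
        by_cases hwv : w = v
        · have h1 := hv u (Finset.mem_of_mem_erase hu)
          refine ⟨u, hu, ?_⟩
          rw [hwv] at hwk
          omega
        · exact ⟨w, Finset.mem_erase.2 ⟨hwv, hwS⟩, hwk⟩)
    have hvt : v ≠ t := fun h => ht (h ▸ hvS)
    have hpS : ∀ i, 1 ≤ i → i ≤ n → p i ∈ S.erase v := by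
      intro i h1 h2
      rw [← hpim]
      exact Finset.mem_image_of_mem _ (Finset.mem_Ioc.2 ⟨by omega, h2⟩)
    have hpv : ∀ i, i ≤ n → p i ≠ v := by
      intro i hi
      rcases Nat.eq_zero_or_pos i with rfl | hpos
      · rw [hp0]; exact hvt.symm
      · exact (Finset.mem_erase.1 (hpS i hpos hi)).1
    refine ⟨Function.update p (n + 1) v, ?_, ?_, ?_, ?_, ?_⟩
    · rw [Function.update_of_ne (by omega), hp0]
    · intro i hi j hj hij
      simp only [Set.mem_Icc] at hi hj
      by_cases hi' : i = n + 1
      · by_cases hj' : j = n + 1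
        · omega
        · rw [hi', Function.update_self, Function.update_of_ne hj'] at hij
          exact absurd hij.symm (hpv j (by omega))
      · by_cases hj' : j = n + 1
        · rw [hj', Function.update_self, Function.update_of_ne hi'] at hij
          exact absurd hij (hpv i (by omega))
        · rw [Function.update_of_ne hi', Function.update_of_ne hj'] at hij
          exact hpinj (by simp only [Set.mem_Icc]; omega) (by simp only [Set.mem_Icc]; omega) hij
    · intro i _ hi
      rcases Nat.lt_or_ge i n with hin | hin
      · rw [Function.update_of_ne (by omega), Function.update_of_ne (by omega)]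
        exact hpadj i (by omega) hin
      · have hin' : i = n := by omega
        subst hin'
        rw [Function.update_of_ne (by omega), Function.update_self]
        rcases Nat.eq_zero_or_pos i with rfl | hpos
        · rw [hp0]
          have hS1 : S = {v} := by
            rw [Finset.card_eq_one] at hS
            obtain ⟨x, hx⟩ := hS
            rw [hx, Finset.mem_singleton] at hvS
            rw [hx, hvS]
          apply hta v hvS
          obtain ⟨w, hw, hwa⟩ := hgap v hvS a le_rfl (hmin v hvS)
          rw [hS1, Finset.mem_singleton] at hw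
          rw [← hwa, hw]
        · have hpi := hpS i hpos le_rfl
          have h1 : ℓ (p i) ≤ ℓ v := hv _ (Finset.mem_of_mem_erase hpi)
          have h2 : ℓ v ≤ ℓ (p i) + 1 := by
            by_contra hcon
            push Not at hcon
            have hpa := hmin _ (Finset.mem_of_mem_erase hpi)
            obtain ⟨w, hw, hwk⟩ := hgap v hvS (ℓ v - 1) (by omega) (by omega)
            have hwv : w ≠ v := by
              rintro rfl
              omega
            have := hpmax hpos w (Finset.mem_erase.2 ⟨hwv, hw⟩)
            omega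
          exact hadj _ (Finset.mem_of_mem_erase hpi) _ hvS (hpv i le_rfl) (by omega) h2
    · have h1 : Finset.Ioc 0 (n + 1) = insert (n + 1) (Finset.Ioc 0 n) := by
        ext i
        simp only [Finset.mem_insert, Finset.mem_Ioc]
        omega
      rw [h1, Finset.image_insert, Function.update_self]
      have h2 : (Finset.Ioc 0 n).image (Function.update p (n + 1) v) = (Finset.Ioc 0 n).image p := by
        apply Finset.image_congr
        intro i hi
        simp only [Finset.coe_Ioc, Set.mem_Ioc] at hi
        exact Function.update_of_ne (by omega) _ _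
      rw [h2, hpim, Finset.insert_erase hvS]
    · intro _ u hu
      rw [Function.update_self]
      exact hv u hu

/-- Gathering a gap-free layered set whose lowest level is adjacent to `t`. -/
theorem gather_thick (G : SimpleGraph V) (ℓ : V → ℤ) (t : V) (a : ℤ) (S : Finset V)
    (hadj : ∀ u ∈ S, ∀ v ∈ S, u ≠ v → ℓ u ≤ ℓ v + 1 → ℓ v ≤ ℓ u + 1 → G.Adj u v)
    (ht : t ∉ S) (hta : ∀ u ∈ S, ℓ u = a → G.Adj t u) (hmin : ∀ u ∈ S, a ≤ ℓ u)
    (hgap : ∀ u ∈ S, ∀ k, a ≤ k → k ≤ ℓ u → ∃ v ∈ S, ℓ v = k) : Gather G S t := by
  obtain ⟨p, hp0, hpinj, hpadj, hpim, -⟩ := exists_path_enum G ℓ t a S.card S rfl hadj ht hta hmin hgap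
  have := (gather_path G p S.card 0 S.card (by omega) (by omega) hpinj hpadj).1
  rwa [hp0, hpim] at this

end Pool.Agent.Lib.MP_28cddd_co
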